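import Pool.Agent.Z705.Defs
import Pool.Agent.Y275.N.C2

/-!
# Z705-C2: evaluation of the divisor sums for numbers `m`

Adaptation of the proofs of helper275 and helper949 (helper574).
-/

set_option autoImplicit false

namespace Pool.Agent.Y576.Z7

open Finset
open Pool.Agent.Z700 (chi3 fac hh ps3)
open Pool.Agent.Z701 (wt)
open Pool.Agent.Z705 (Ok WM psg)
open Pool.Agent.Y687.N (psn)
open Pool.Agent.Y574.Z7 (div_split sum_local chp chp_mul chp_one chp_self chp_nd chp_sq chp_pm jac_eq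
  chi3_eq wq ps3_eq dvd_fac alt_sum one_sum two_pt nd4 fac_D fac_D2 chp_D mem_D)
open Pool.Agent.Y275.N (Pn Pn_mul Pn_fac Pn_pm Pn_nd Pn_l Pn_two Pn_self wn psn_eq QQ mem_QQ2 mem_QQ7
  sub_QQ pf_QQ QQ_prime dvd_iff' ne_two facp_eq facg_eq not_dvd_of chi_sq Ff prod_Ff sign_eq ex
  mem_ex)

/-! ### the number `3 m` -/

theorem ok8 {m : ℕ} (hm : Ok m) : (3 * m) % 8 = 3 := by
  have := hm.2.1
  omega

theorem ok0 {m : ℕ} (hm : Ok m) : m ≠ 0 := hm.1.ne_zero

theorem ok_sq {m : ℕ} (hm : Ok m) : Squarefree (3 * m) := by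
  have h : Nat.Coprime 3 m := (Nat.Prime.coprime_iff_not_dvd Nat.prime_three).2 hm.2.2.1
  exact (Nat.squarefree_mul h).2 ⟨Nat.prime_three.squarefree, hm.1⟩

theorem pf3 {m : ℕ} (hm : Ok m) : (3 * m).primeFactors = insert 3 m.primeFactors := by
  rw [Nat.primeFactors_mul (by norm_num) (ok0 hm), Nat.prime_three.primeFactors]
  rfl

theorem three_notMem {m : ℕ} (hm : Ok m) : 3 ∉ m.primeFactors := fun h =>
  hm.2.2.1 (Nat.dvd_of_mem_primeFactors h)

theorem three_mem {m : ℕ} (hm : Ok m) : 3 ∈ (3 * m).primeFactors := by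
  rw [pf3 hm]
  exact Finset.mem_insert_self _ _

theorem ok7 {m : ℕ} (hm : Ok m) : ¬ 7 ∣ 3 * m := by
  have := hm.2.2.2
  omega

theorem P7 {m : ℕ} (hm : Ok m) : Pn (3 * m) 7 = 1 := by
  have h8 := ok8 hm
  rw [Pn_l (ok_sq hm) h8 (by norm_num) (by norm_num)
    (fun h => ok7 hm (Nat.dvd_of_mem_primeFactors h))]
  have h7 := hm.2.2.2
  rw [jacobiSym.mod_left]
  have h : (-((3 * m : ℕ) : ℤ)) % ((7 : ℕ) : ℤ) = 4 ∨ (-((3 * m : ℕ) : ℤ)) % ((7 : ℕ) : ℤ) = 1 ∨
      (-((3 * m : ℕ) : ℤ)) % ((7 : ℕ) : ℤ) = 2 := by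
    push_cast
    omega
  rcases h with h | h | h <;> rw [h] <;> norm_num

theorem P3 {m : ℕ} (hm : Ok m) : Pn (3 * m) 3 = chi3 m := by
  rw [Pn_self (ok_sq hm) (ok8 hm) (three_mem hm), chp_mul, chp_self Nat.prime_three, one_mul,
    chp_nd hm.2.2.1, chi3_eq]

/-! ### the signs -/

theorem psg_eq {p : ℕ} (hp : Odd p) (a a' Y X : ℕ) :
    psg p a a' Y X = ZMod.χ₄ p * psn p a a' Y X := by
  unfold psg psn
  split_ifs
  · rw [jacobiSym.neg _ hp, ← mul_assoc, chi_sq hp, one_mul]
  · rw [jacobiSym.neg _ hp]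

theorem prod_chi {m : ℕ} (hm : Ok m) : ∏ p ∈ m.primeFactors, (ZMod.χ₄ (p : ZMod 4) : ℤ) = 1 := by
  rw [← map_prod, ← Nat.cast_prod, Nat.prod_primeFactors_of_squarefree hm.1]
  have := hm.2.1
  exact ZMod.χ₄_nat_one_mod_four (by omega)

theorem odd_of {m : ℕ} (hm : Ok m) {p : ℕ} (hp : p ∈ m.primeFactors) : Odd p := by
  have h1 := Nat.prime_of_mem_primeFactors hp
  refine h1.odd_of_ne_two fun h => ?_
  have h2 := Nat.dvd_of_mem_primeFactors hp
  have := hm.2.1
  rw [h] at h2
  omega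

theorem prod_psg {m : ℕ} (hm : Ok m) (a a' Y X : ℕ) :
    ∏ p ∈ m.primeFactors, psg p a a' Y X = ∏ p ∈ m.primeFactors, psn p a a' Y X := by
  rw [Finset.prod_congr rfl fun p hp => psg_eq (odd_of hm hp) a a' Y X, Finset.prod_mul_distrib,
    prod_chi hm, one_mul]

/-! ### the local weights -/

/-- the local weight at a divisor of `3 m` -/
def gw (S T l i j : ℕ) : ℤ := if l = 3 then wq S T 3 i j else wn S T l i j

/-- the local weights -/
def Wl (m S T l i j : ℕ) : ℤ :=
  Pn (3 * m) l ^ (i + j) * (if l ∈ (3 * m).primeFactors then gw S T l i j else 1) *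
    (if l = 2 then (if 1 ≤ i then 1 else 0) else 1) * (if l = 7 then (if 1 ≤ j then 1 else 0) else 1)

theorem term_eq {m S T : ℕ} (hm : Ok m) (hS : S ≠ 0) (hT : T ≠ 0)
    (hST : S + T = 3 * m) {a a' : ℕ} (ha : a ∣ S) (ha' : a' ∣ T) :
    (if 2 ∣ a then (if 7 ∣ a' then
      ps3 a a' (S / a) (T / a') * ∏ p ∈ m.primeFactors, psn p a a' (S / a) (T / a') else 0)
        else 0) =
      ∏ l ∈ QQ (3 * m) S T, Wl m S T l (a.factorization l) (a'.factorization l) := by
  classical
  have h8 := ok8 hm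
  have a0 : a ≠ 0 := by rintro rfl; exact hS (zero_dvd_iff.1 ha)
  have b0 : a' ≠ 0 := by rintro rfl; exact hT (zero_dvd_iff.1 ha')
  have hsa : a.primeFactors ⊆ QQ (3 * m) S T :=
    (Nat.primeFactors_mono (ha.mul_right T) (mul_ne_zero hS hT)).trans pf_QQ
  have hsb : a'.primeFactors ⊆ QQ (3 * m) S T :=
    (Nat.primeFactors_mono (ha'.mul_left S) (mul_ne_zero hS hT)).trans pf_QQ
  unfold Wl
  rw [Finset.prod_mul_distrib, Finset.prod_mul_distrib, Finset.prod_mul_distrib]
  have e1 : ∏ l ∈ QQ (3 * m) S T, Pn (3 * m) l ^ (a.factorization l + a'.factorization l) =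
      Pn (3 * m) a * Pn (3 * m) a' := by
    rw [Pn_fac (3 * m) (QQ (3 * m) S T) a a0 hsa, Pn_fac (3 * m) (QQ (3 * m) S T) a' b0 hsb,
      ← Finset.prod_mul_distrib]
    exact Finset.prod_congr rfl fun l _ => pow_add _ _ _
  have e2 : ∏ l ∈ QQ (3 * m) S T, (if l ∈ (3 * m).primeFactors then
      gw S T l (a.factorization l) (a'.factorization l) else 1) =
      ∏ l ∈ (3 * m).primeFactors, gw S T l (a.factorization l) (a'.factorization l) := by
    rw [Finset.prod_ite_mem, Finset.inter_eq_right.2 sub_QQ]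
  have e3 : ∏ l ∈ QQ (3 * m) S T, (if l = 2 then (if 1 ≤ a.factorization l then (1 : ℤ) else 0) else 1) =
      if 2 ∣ a then 1 else 0 := by
    rw [Finset.prod_ite_eq' (QQ (3 * m) S T) 2 (fun l => if 1 ≤ a.factorization l then (1 : ℤ) else 0),
      if_pos mem_QQ2]
    simp only [dvd_fac Nat.prime_two a0]
  have e4 : ∏ l ∈ QQ (3 * m) S T, (if l = 7 then
      (if 1 ≤ a'.factorization l then (1 : ℤ) else 0) else 1) =
      if 7 ∣ a' then 1 else 0 := by
    rw [Finset.prod_ite_eq' (QQ (3 * m) S T) 7 (fun l =>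
      (if 1 ≤ a'.factorization l then (1 : ℤ) else 0)), if_pos mem_QQ7]
    simp only [dvd_fac (by norm_num : Nat.Prime 7) b0]
  rw [e1, e2, e3, e4]
  have e5 : ps3 a a' (S / a) (T / a') * ∏ l ∈ m.primeFactors, psn l a a' (S / a) (T / a') =
      Pn (3 * m) a * Pn (3 * m) a' *
        ∏ l ∈ (3 * m).primeFactors, gw S T l (a.factorization l) (a'.factorization l) := by
    have h3 := three_notMem hm
    unfold Pn
    rw [pf3 hm, ← Finset.prod_mul_distrib, ← Finset.prod_mul_distrib, Finset.prod_insert h3,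
      ps3_eq hS hT (dvd_iff' hST (three_mem hm)) ha ha']
    congr 1
    refine Finset.prod_congr rfl fun p hp => ?_
    have hp3 : p ≠ 3 := fun h => h3 (h ▸ hp)
    have hpn : p ∈ (3 * m).primeFactors := by
      rw [pf3 hm]
      exact Finset.mem_insert_of_mem hp
    rw [psn_eq (Nat.prime_of_mem_primeFactors hp) (ne_two h8 hpn) hS hT (dvd_iff' hST hpn) ha ha']
    unfold gw
    rw [if_neg hp3]
  rw [e5]
  split_ifs <;> simp

/-- the sum of the local weights -/
def Ls (m S T l : ℕ) : ℤ :=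
  ∑ i ∈ range (S.factorization l + 1), ∑ j ∈ range (T.factorization l + 1), Wl m S T l i j

theorem WM_eq {m S T : ℕ} (hm : Ok m) (hS : S ≠ 0) (hT : T ≠ 0)
    (hST : S + T = 3 * m) : WM m T = ∏ l ∈ QQ (3 * m) S T, Ls m S T l := by
  have hnT : 3 * m - T = S := by omega
  unfold Ls
  rw [← sum_local (Wl m S T) (QQ (3 * m) S T) QQ_prime S T hS hT
    (fun l hl hd => pf_QQ (Nat.mem_primeFactors.2 ⟨hl, hd.mul_right T, mul_ne_zero hS hT⟩))
    (fun l hl hd => pf_QQ (Nat.mem_primeFactors.2 ⟨hl, hd.mul_left S, mul_ne_zero hS hT⟩))]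
  unfold WM
  simp only [prod_psg hm]
  rw [hnT, Finset.sum_filter]
  refine Finset.sum_congr rfl fun a ha => ?_
  rw [Finset.sum_filter]
  have ha1 := Nat.dvd_of_mem_divisors ha
  have h1 : ∀ a' ∈ T.divisors,
      ∏ l ∈ QQ (3 * m) S T, Wl m S T l (a.factorization l) (a'.factorization l) =
      (if 2 ∣ a then (if 7 ∣ a' then
      ps3 a a' (S / a) (T / a') * ∏ p ∈ m.primeFactors, psn p a a' (S / a) (T / a') else 0)
        else 0) :=
    fun a' ha' => (term_eq hm hS hT hST ha1 (Nat.dvd_of_mem_divisors ha')).symm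
  rw [Finset.sum_congr rfl h1]
  by_cases h2 : 2 ∣ a
  · simp only [if_pos h2]
  · simp only [if_neg h2, Finset.sum_const_zero]

/-! ### the local sums -/

theorem Ls_two {m S T : ℕ} (hm : Ok m) (hT : Odd T) :
    Ls m S T 2 = if Odd (S.factorization 2) then -1 else 0 := by
  have h2 : (2 : ℕ) ∉ (3 * m).primeFactors := fun h => ne_two (ok8 hm) h rfl
  have hT2 : T.factorization 2 = 0 := Nat.factorization_eq_zero_of_not_dvd (fun h => by
      have := (Nat.odd_iff.1 hT); omega)
  unfold Ls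
  rw [hT2, zero_add, ← alt_sum]
  refine Finset.sum_congr rfl fun i _ => ?_
  rw [Finset.sum_range_one]
  unfold Wl
  rw [if_neg h2, if_pos rfl, if_neg (by norm_num : (2 : ℕ) ≠ 7), Pn_two (ok_sq hm) (ok8 hm),
    add_zero]
  ring

theorem Ls_seven {m S T : ℕ} (hm : Ok m) (hS7 : ¬ 7 ∣ S) :
    Ls m S T 7 = (T.factorization 7 : ℤ) := by
  have h7' : (7 : ℕ) ∉ (3 * m).primeFactors := fun h => ok7 hm (Nat.dvd_of_mem_primeFactors h)
  unfold Ls
  rw [Nat.factorization_eq_zero_of_not_dvd hS7, zero_add, Finset.sum_range_one, ← one_sum]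
  refine Finset.sum_congr rfl fun j _ => ?_
  unfold Wl
  rw [if_neg h7', if_pos rfl, if_neg (by norm_num : (7 : ℕ) ≠ 2), P7 hm, one_pow]
  ring

theorem Wl_ex {m S T l : ℕ} (hl : l ∉ ex 7) (i j : ℕ) :
    Wl m S T l i j = Pn (3 * m) l ^ (i + j) *
      (if l ∈ (3 * m).primeFactors then gw S T l i j else 1) := by
  rw [mem_ex] at hl
  push Not at hl
  unfold Wl
  rw [if_neg hl.1, mul_one]
  by_cases h : l = 7
  · exact absurd rfl (hl.2 h)
  · rw [if_neg h, mul_one]

theorem Ls_gen {m S T l : ℕ} (hm : Ok m) (hS : S ≠ 0) (hT : T ≠ 0)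
    (hST : S + T = 3 * m) (hp : l.Prime) (hex : l ∉ ex 7) (hl : l ∉ (3 * m).primeFactors) :
    Ls m S T l = fac (3 * m) (4 * S * T) l := by
  have h2 : l ≠ 2 := fun h => hex (mem_ex.2 (Or.inl h))
  rw [facg_eq (ok_sq hm) (ok8 hm) hS hT hp h2 hl]
  unfold Ls
  simp only [Wl_ex hex, if_neg hl, mul_one]
  have h0 : S.factorization l = 0 ∨ T.factorization l = 0 := by
    by_contra h
    push Not at h
    have h1 := (dvd_fac hp hS).2 (by omega)
    have h2 := (dvd_fac hp hT).2 (by omega)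
    exact not_dvd_of (ok_sq hm) hp hl (hST ▸ dvd_add h1 h2)
  rcases h0 with h0 | h0
  · rw [h0, zero_add, Finset.sum_range_one, zero_add]
    exact Finset.sum_congr rfl fun j _ => by rw [zero_add]
  · rw [h0, zero_add, add_zero]
    exact Finset.sum_congr rfl fun i _ => by rw [Finset.sum_range_one, add_zero]

theorem fac3_eq {m S T : ℕ} (hm : Ok m) (hS : S ≠ 0) (hT : T ≠ 0) :
    fac (3 * m) (4 * S * T) 3 =
      1 - Pn (3 * m) 3 ^ (S.factorization 3 + T.factorization 3) * (chp 3 S * chp 3 T) := by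
  rw [facp_eq (ok_sq hm) (ok8 hm) hS hT (three_mem hm)]
  have h : (ZMod.χ₄ ((3 : ℕ) : ZMod 4) : ℤ) = -1 :=
    ZMod.χ₄_nat_three_mod_four (by norm_num : 3 % 4 = 3)
  rw [h]
  ring

theorem ex3 : (3 : ℕ) ∉ ex 7 := by
  rw [mem_ex]
  norm_num

theorem Ls_three {m S T : ℕ} (hm : Ok m) (hS : S ≠ 0) (hT : T ≠ 0)
    (hST : S + T = 3 * m) :
    Ls m S T 3 = if 3 ∣ T then fac (3 * m) (4 * S * T) 3 else 1 := by
  have h3 := three_mem hm
  have hd := dvd_iff' hST h3
  unfold Ls
  simp only [Wl_ex ex3, if_pos h3]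
  unfold gw wq
  simp only [if_true]
  by_cases h : 3 ∣ T
  · rw [if_pos h, fac3_eq hm hS hT]
    simp only [if_pos h]
    have s1 := (dvd_fac Nat.prime_three hS).1 (hd.2 h)
    have t1 := (dvd_fac Nat.prime_three hT).1 h
    have k := two_pt (S.factorization 3) (T.factorization 3) 0 0 (S.factorization 3) (T.factorization 3)
      (Nat.zero_le _) (Nat.zero_le _) le_rfl le_rfl (Or.inl (by omega)) 1 (-(chp 3 S * chp 3 T))
      (fun i j => Pn (3 * m) 3 ^ (i + j))
    rw [k]
    ring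
  · rw [if_neg h]
    simp only [if_neg h]
    rw [Nat.factorization_eq_zero_of_not_dvd h, Nat.factorization_eq_zero_of_not_dvd (fun h1 => h (hd.1 h1))]
    simp

theorem Ls_p {m S T : ℕ} (hm : Ok m) (hS : S ≠ 0) (hT : T ≠ 0)
    (hST : S + T = 3 * m) {p : ℕ} (hp : p ∈ (3 * m).primeFactors) (hp3 : p ≠ 3)
    (hex : p ∉ ex 7) :
    Ls m S T p = (Pn (3 * m) p ^ T.factorization p * chp p T) *
      (if p ∣ T then fac (3 * m) (4 * S * T) p else 1) := by
  have hd := dvd_iff' hST hp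
  have hpp := Nat.prime_of_mem_primeFactors hp
  unfold Ls
  simp only [Wl_ex hex, if_pos hp]
  unfold gw wn
  simp only [if_neg hp3]
  by_cases h : p ∣ T
  · rw [if_pos h, facp_eq (ok_sq hm) (ok8 hm) hS hT hp]
    simp only [if_pos h]
    have s1 := (dvd_fac hpp hS).1 (hd.2 h)
    have t1 := (dvd_fac hpp hT).1 h
    rw [two_pt (S.factorization p) (T.factorization p) (S.factorization p) 0 0 (T.factorization p)
      le_rfl (Nat.zero_le _) (Nat.zero_le _) le_rfl (Or.inl (by omega)) (ZMod.χ₄ p * chp p S)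
      (chp p T) (fun i j => Pn (3 * m) p ^ (i + j))]
    simp only [add_zero, zero_add]
    have c1 := chp_sq hpp hT
    have c2 : Pn (3 * m) p ^ T.factorization p * Pn (3 * m) p ^ T.factorization p = 1 := by
      rw [← mul_pow]
      rcases Pn_pm (n := 3 * m) hpp.ne_zero with h | h <;> rw [h] <;> norm_num
    rw [pow_add]
    linear_combination (-(ZMod.χ₄ p * Pn (3 * m) p ^ S.factorization p * chp p S *
      (chp p T * chp p T))) * c2 -
      (ZMod.χ₄ p * Pn (3 * m) p ^ S.factorization p * chp p S) * c1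
  · rw [if_neg h]
    simp only [if_neg h]
    rw [Nat.factorization_eq_zero_of_not_dvd h, Nat.factorization_eq_zero_of_not_dvd (fun h1 => h (hd.1 h1))]
    simp only [zero_add, Finset.sum_range_one, pow_zero, one_mul, mul_one]

/-! ### the assembly -/

/-- the local sums away from the excluded primes -/
theorem Ls_Q' {m S T : ℕ} (hm : Ok m) (hS : S ≠ 0) (hT : T ≠ 0)
    (hST : S + T = 3 * m) {l : ℕ} (hl : l ∈ QQ (3 * m) S T \ ex 7) :
    Ls m S T l = (if l ∈ m.primeFactors then Pn (3 * m) l ^ T.factorization l * chp l T else 1) *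
      Ff (3 * m) S T l := by
  obtain ⟨hl1, hex⟩ := Finset.mem_sdiff.1 hl
  have hp := QQ_prime l hl1
  have h2 : l ≠ 2 := fun h => hex (mem_ex.2 (Or.inl h))
  have hD := mem_D hS hT hp h2
  by_cases hlP : l ∈ (3 * m).primeFactors
  · have hd := dvd_iff' hST hlP
    have hD' : l ∈ (4 * S * T).primeFactors ↔ l ∣ T := by rw [hD, hd, or_self]
    by_cases h3 : l = 3
    · subst h3
      rw [if_neg (three_notMem hm), one_mul, Ls_three hm hS hT hST]
      unfold Ff
      simp only [hD']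
    · have hlm : l ∈ m.primeFactors := by
        rw [pf3 hm] at hlP
        exact (Finset.mem_insert.1 hlP).resolve_left h3
      rw [if_pos hlm, Ls_p hm hS hT hST hlP h3 hex]
      unfold Ff
      simp only [hD']
  · have hlm : l ∉ m.primeFactors := fun h => hlP (by
      rw [pf3 hm]
      exact Finset.mem_insert_of_mem h)
    rw [if_neg hlm, one_mul, Ls_gen hm hS hT hST hp hex hlP]
    unfold Ff
    split_ifs with h
    · rfl
    · rw [facg_eq (ok_sq hm) (ok8 hm) hS hT hp h2 hlP]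
      rw [hD] at h
      push Not at h
      rw [Nat.factorization_eq_zero_of_not_dvd h.1, Nat.factorization_eq_zero_of_not_dvd h.2]
      simp

/-- the weight -/
theorem wt_eq {m S T : ℕ} (hm : Ok m) (hS : S ≠ 0) (hT : T ≠ 0)
    (hST : S + T = 3 * m) (hF : Ff (3 * m) S T 3 ≠ 0) :
    wt m m (3 * (m : ℤ) - 2 * T) = chp 3 S * Pn (3 * m) 3 ^ S.factorization 3 := by
  have hd := dvd_iff' hST (three_mem hm)
  have hm3 : ¬ 3 ∣ m := hm.2.2.1
  have hPsi : Pn (3 * m) 3 = chi3 m := P3 hm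
  unfold wt
  by_cases h : 3 ∣ T
  · have hS3 := hd.2 h
    rw [if_pos (by omega), if_pos rfl]
    unfold Ff at hF
    rw [if_pos ((mem_D hS hT Nat.prime_three (by norm_num)).2 (Or.inr h)), fac3_eq hm hS hT] at hF
    obtain ⟨S', rfl⟩ := hS3
    obtain ⟨T', rfl⟩ := h
    have h1 : S' + T' = m := by omega
    have hS0 : S' ≠ 0 := right_ne_zero_of_mul hS
    have hT0 : T' ≠ 0 := right_ne_zero_of_mul hT
    have fS : (3 * S').factorization 3 = 1 + S'.factorization 3 := by
      rw [Nat.factorization_mul (by norm_num) hS0, Finsupp.add_apply, Nat.prime_three.factorization_self]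
    have fT : (3 * T').factorization 3 = 1 + T'.factorization 3 := by
      rw [Nat.factorization_mul (by norm_num) hT0, Finsupp.add_apply, Nat.prime_three.factorization_self]
    rw [chp_mul, chp_mul, chp_self Nat.prime_three, one_mul, one_mul, fS, fT] at hF
    rw [chp_mul, chp_self Nat.prime_three, one_mul, fS]
    have h2 : (3 * (m : ℤ) - 2 * ((3 * T' : ℕ) : ℤ)) / 3 = (m : ℤ) - 2 * T' := by
      push_cast; omega
    rw [h2]
    have cS : ¬ 3 ∣ S' → chp 3 S' = chi3 S' := fun h => by rw [chp_nd h, chi3_eq]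
    have cT : ¬ 3 ∣ T' → chp 3 T' = chi3 T' := fun h => by rw [chp_nd h, chi3_eq]
    have zS : ¬ 3 ∣ S' → S'.factorization 3 = 0 := Nat.factorization_eq_zero_of_not_dvd
    have zT : ¬ 3 ∣ T' → T'.factorization 3 = 0 := Nat.factorization_eq_zero_of_not_dvd
    have hchi : ∀ x : ℤ, chi3 x = if x % 3 = 1 then 1 else if x % 3 = 2 then -1 else 0 := fun _ => rfl
    have hmul : (((m : ℕ) : ℤ) * ((m : ℤ) - 2 * T')) % 3 =
        ((((m : ℕ) : ℤ) % 3) * (((m : ℤ) - 2 * T') % 3)) % 3 := Int.mul_emod _ _ _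
    have hT3 : T' % 3 = 0 ∨ T' % 3 = 1 ∨ T' % 3 = 2 := by omega
    have hmm : m % 3 = 1 ∨ m % 3 = 2 := by omega
    rcases hmm with hmm | hmm
    · have m1 : ((m : ℕ) : ℤ) % 3 = 1 := by omega
      have hP1 : Pn (3 * m) 3 = 1 := by rw [hPsi, hchi, if_pos m1]
      rw [hP1, one_pow, one_mul] at hF
      rw [hP1, one_pow, mul_one]
      rcases hT3 with h3 | h3 | h3
      · have d : ¬ 3 ∣ S' := by omega
        rw [cS d, hchi, hchi, hmul, m1, if_pos (by omega : ((S' : ℕ) : ℤ) % 3 = 1), if_pos (by omega)]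
      · have h4 : chp 3 T' = 1 := by rw [cT (by omega), hchi, if_pos (by omega)]
        rw [h4, mul_one] at hF
        have h5 : chp 3 S' = -1 := by
          rcases chp_pm Nat.prime_three hS0 with h5 | h5
          · exact absurd (by rw [h5]; norm_num) hF
          · exact h5
        rw [h5, hchi, hmul, m1, if_neg (by omega), if_pos (by omega)]
      · exfalso
        apply hF
        rw [cS (by omega), cT (by omega), hchi, hchi, if_neg (by omega), if_pos (by omega), if_neg (by omega),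
          if_pos (by omega)]
        norm_num
    · have m1 : ((m : ℕ) : ℤ) % 3 = 2 := by omega
      have hP1 : Pn (3 * m) 3 = -1 := by rw [hPsi, hchi, if_neg (by omega), if_pos m1]
      rw [hP1] at hF ⊢
      rcases hT3 with h3 | h3 | h3
      · have d : ¬ 3 ∣ S' := by omega
        rw [cS d, zS d, hchi, hchi, hmul, m1, if_neg (by omega : ¬ ((S' : ℕ) : ℤ) % 3 = 1),
          if_pos (by omega : ((S' : ℕ) : ℤ) % 3 = 2), if_pos (by omega)]
        norm_num
      · exfalso
        apply hF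
        have dS : ¬ 3 ∣ S' := by omega
        have dT : ¬ 3 ∣ T' := by omega
        rw [cS dS, cT dT, zS dS, zT dT, hchi, hchi, if_pos (by omega), if_pos (by omega)]
        norm_num
      · have dT : ¬ 3 ∣ T' := by omega
        have h4 : chp 3 T' = -1 := by rw [cT dT, hchi, if_neg (by omega), if_pos (by omega)]
        rw [h4, zT dT] at hF
        have h6 : (-1 : ℤ) ^ (1 + S'.factorization 3 + (1 + 0)) = -(-1 : ℤ) ^ (1 + S'.factorization 3) := by
          rw [add_zero, pow_succ]; ring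
        rw [h6] at hF
        have h7 : chp 3 S' * (-1 : ℤ) ^ (1 + S'.factorization 3) = -1 := by
          have h8 : chp 3 S' * (-1 : ℤ) ^ (1 + S'.factorization 3) = 1 ∨
              chp 3 S' * (-1 : ℤ) ^ (1 + S'.factorization 3) = -1 := by
            rcases chp_pm Nat.prime_three hS0 with h5 | h5 <;>
            rcases neg_one_pow_eq_or ℤ (1 + S'.factorization 3) with h9 | h9 <;> rw [h5, h9] <;> norm_num
          rcases h8 with h8 | h8
          · exfalso
            apply hF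
            linear_combination (-1 : ℤ) * h8
          · exact h8
        rw [h7, hchi, hmul, m1, if_neg (by omega), if_pos (by omega)]
  · rw [if_neg (by omega), chp_nd (fun h1 => h (hd.1 h1)), ← chi3_eq,
      Nat.factorization_eq_zero_of_not_dvd (fun h1 => h (hd.1 h1)), pow_zero, mul_one]
    unfold chi3
    have h3 : T % 3 = 1 ∨ T % 3 = 2 := by omega
    rcases h3 with h3 | h3
    · rw [if_pos (by omega), if_neg (by omega), if_pos (by omega)]
    · rw [if_neg (by omega), if_pos (by omega), if_pos (by omega)]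
      norm_num

/-- the weight in terms of `T` -/
theorem wt_eq' {m S T : ℕ} (hm : Ok m) (hS : S ≠ 0) (hT : T ≠ 0)
    (hST : S + T = 3 * m) (hF : Ff (3 * m) S T 3 ≠ 0) :
    wt m m (3 * (m : ℤ) - 2 * T) = -(Pn (3 * m) 3 ^ T.factorization 3 * chp 3 T) := by
  rw [wt_eq hm hS hT hST hF]
  have hd := dvd_iff' hST (three_mem hm)
  have c1 := chp_sq Nat.prime_three hT
  have c2 : Pn (3 * m) 3 ^ T.factorization 3 * Pn (3 * m) 3 ^ T.factorization 3 = 1 := by
    rw [← mul_pow]
    rcases Pn_pm (n := 3 * m) (by norm_num : (3 : ℕ) ≠ 0) with h | h <;> rw [h] <;> norm_num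
  by_cases h : 3 ∣ T
  · unfold Ff at hF
    rw [if_pos ((mem_D hS hT Nat.prime_three (by norm_num)).2 (Or.inr h)), fac3_eq hm hS hT] at hF
    have c3 : Pn (3 * m) 3 ^ (S.factorization 3 + T.factorization 3) * (chp 3 S * chp 3 T) = -1 := by
      have c4 : Pn (3 * m) 3 ^ (S.factorization 3 + T.factorization 3) * (chp 3 S * chp 3 T) = 1 ∨
          Pn (3 * m) 3 ^ (S.factorization 3 + T.factorization 3) * (chp 3 S * chp 3 T) = -1 := by
        apply mul_self_eq_one_iff.1
        have d1 := chp_sq Nat.prime_three hS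
        have d2 : Pn (3 * m) 3 ^ (S.factorization 3 + T.factorization 3) *
            Pn (3 * m) 3 ^ (S.factorization 3 + T.factorization 3) = 1 := by
          rw [← mul_pow]
          rcases Pn_pm (n := 3 * m) (by norm_num : (3 : ℕ) ≠ 0) with h | h <;> rw [h] <;> norm_num
        set W := Pn (3 * m) 3 ^ (S.factorization 3 + T.factorization 3)
        linear_combination (chp 3 S * chp 3 S * (chp 3 T * chp 3 T)) * d2 +
          (chp 3 T * chp 3 T) * d1 + c1
      rcases c4 with c4 | c4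
      · exact absurd (by rw [c4]; norm_num) hF
      · exact c4
    rw [pow_add] at c3
    set A := Pn (3 * m) 3 ^ S.factorization 3
    set B := Pn (3 * m) 3 ^ T.factorization 3
    linear_combination (B * chp 3 T) * c3 - (A * chp 3 S * (chp 3 T * chp 3 T)) * c2 -
      (A * chp 3 S) * c1
  · have hS3 : ¬ 3 ∣ S := fun h1 => h (hd.1 h1)
    rw [Nat.factorization_eq_zero_of_not_dvd h, Nat.factorization_eq_zero_of_not_dvd hS3, pow_zero,
      mul_one, one_mul, chp_nd h, chp_nd hS3, ← chi3_eq, ← chi3_eq]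
    unfold chi3
    have h3 : T % 3 = 1 ∨ T % 3 = 2 := by omega
    rcases h3 with h3 | h3
    · rw [if_neg (by omega), if_pos (by omega), if_pos (by omega)]
    · rw [if_pos (by omega), if_neg (by omega), if_pos (by omega)]
      norm_num

/-- C2 -/
theorem t_C2 : Pool.Agent.Z705.S_C2 := by
  classical
  intro m hm _ T hTo h7T hlt
  obtain ⟨S, hSdef⟩ : ∃ S, S = 3 * m - T := ⟨_, rfl⟩
  rw [← hSdef]
  have h8 := ok8 hm
  have hsq := ok_sq hm
  have hST : S + T = 3 * m := by omega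
  have hS : S ≠ 0 := by omega
  have hT : T ≠ 0 := by rintro rfl; exact absurd hTo (by decide)
  have hS7 : ¬ 7 ∣ S := fun h => ok7 hm (hST ▸ dvd_add h h7T)
  rw [WM_eq hm hS hT hST]
  have hexs : ex 7 ⊆ QQ (3 * m) S T := by
    intro l hl
    rcases mem_ex.1 hl with h | ⟨h, _⟩
    · rw [h]; exact mem_QQ2
    · rw [h]; exact mem_QQ7
  have hE : ∏ l ∈ ex 7, Ls m S T l = (if Odd (S.factorization 2) then -1 else 0) *
      ((4 * S * T).factorization 7 : ℤ) := by
    unfold ex
    rw [if_pos rfl, Finset.prod_pair (by norm_num), Ls_two hm hTo, Ls_seven hm hS7,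
      fac_D hS hT (by norm_num) (by norm_num), Nat.factorization_eq_zero_of_not_dvd hS7, zero_add]
  have hPsub : m.primeFactors ⊆ QQ (3 * m) S T \ ex 7 := by
    intro l hl
    have hl' : l ∈ (3 * m).primeFactors := by
      rw [pf3 hm]
      exact Finset.mem_insert_of_mem hl
    refine Finset.mem_sdiff.2 ⟨sub_QQ hl', fun h => ?_⟩
    rcases mem_ex.1 h with h | ⟨h, _⟩
    · exact ne_two h8 hl' h
    · rw [h] at hl'
      exact ok7 hm (Nat.dvd_of_mem_primeFactors hl')
  have e1 : ∏ l ∈ QQ (3 * m) S T \ ex 7, Ls m S T l =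
      (∏ l ∈ m.primeFactors, (Pn (3 * m) l ^ T.factorization l * chp l T)) *
        ∏ l ∈ QQ (3 * m) S T \ ex 7, Ff (3 * m) S T l := by
    rw [Finset.prod_congr rfl fun l (hl : l ∈ QQ (3 * m) S T \ ex 7) => Ls_Q' hm hS hT hST hl,
      Finset.prod_mul_distrib, Finset.prod_ite_mem, Finset.inter_eq_right.2 hPsub]
  have e2 : ((4 * S * T).primeFactors.erase 2).erase 7 = (4 * S * T).primeFactors \ ex 7 := by
    ext l
    rw [Finset.mem_sdiff, mem_ex, Finset.mem_erase, Finset.mem_erase]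
    constructor
    · rintro ⟨h1, h2, h3⟩
      refine ⟨h3, ?_⟩
      rintro (h | ⟨h, _⟩)
      · exact h2 h
      · exact h1 h
    · rintro ⟨h1, h2⟩
      exact ⟨fun h => h2 (Or.inr ⟨h, rfl⟩), fun h => h2 (Or.inl h), h1⟩
  rw [← Finset.prod_sdiff hexs, hE, e1]
  unfold Pool.Agent.Z700.loc
  rw [e2, ← prod_Ff hS hT, fac_D2 hS hTo]
  by_cases hodd : Odd (S.factorization 2)
  · rw [if_pos hodd, if_pos (show Odd (S.factorization 2 + 2) from by
      obtain ⟨k, hk⟩ := hodd; exact ⟨k + 1, by omega⟩)]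
    by_cases hF : ∀ l ∈ QQ (3 * m) S T \ ex 7, Ff (3 * m) S T l ≠ 0
    · have hs := sign_eq (d := 7) hsq h8 hS hT hTo hST (fun _ => P7 hm) hF
      rw [pf3 hm, Finset.prod_insert (three_notMem hm)] at hs
      have h3 : 3 ∈ QQ (3 * m) S T \ ex 7 :=
        Finset.mem_sdiff.2 ⟨sub_QQ (three_mem hm), ex3⟩
      rw [wt_eq' hm hS hT hST (hF 3 h3)]
      have c1 := chp_sq Nat.prime_three hT
      have c2 : Pn (3 * m) 3 ^ T.factorization 3 * Pn (3 * m) 3 ^ T.factorization 3 = 1 := by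
        rw [← mul_pow]
        rcases Pn_pm (n := 3 * m) (by norm_num : (3 : ℕ) ≠ 0) with h | h <;> rw [h] <;> norm_num
      have hs' : ∏ l ∈ m.primeFactors, (Pn (3 * m) l ^ T.factorization l * chp l T) =
          Pn (3 * m) 3 ^ T.factorization 3 * chp 3 T := by
        set A := Pn (3 * m) 3 ^ T.factorization 3
        set Q := ∏ l ∈ m.primeFactors, (Pn (3 * m) l ^ T.factorization l * chp l T)
        linear_combination (A * chp 3 T) * hs - (Q * (chp 3 T * chp 3 T)) * c2 - Q * c1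
      rw [hs']
      ring
    · push Not at hF
      obtain ⟨l, hl, hl0⟩ := hF
      rw [Finset.prod_eq_zero hl hl0]
      ring
  · rw [if_neg hodd, if_neg (show ¬ Odd (S.factorization 2 + 2) from fun h => hodd (by
      obtain ⟨k, hk⟩ := h
      exact ⟨k - 1, by omega⟩))]
    ring

end Pool.Agent.Y576.Z7
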